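import Pool.Agent.H30.VR.Targets

/-!
# MP_d32443_co, asymptotic form: assembly
-/

set_option autoImplicit false

open Finset Pool.Agent.H48.CE

namespace Pool.Agent.H30.VR

theorem Con.mono {V : Type} [Fintype V] {G : SimpleGraph V} {T T' : ℕ} (h : Con G T)
    (hT : T' ≤ T) : Con G T' := by
  intro A B h1 h2
  rcases h A B h1 h2 with h3 | h3 | ⟨S, h3, h4⟩
  · exact Or.inl h3
  · exact Or.inr (Or.inl h3)
  · exact Or.inr (Or.inr ⟨S, h3, by omega⟩)

theorem ee_univ {V : Type} [Fintype V] (G : SimpleGraph V) :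
    ee G univ univ = 2 * G.edgeSet.ncard := by
  classical
  have h1 := G.sum_degrees_eq_twice_card_edges
  have h2 : G.edgeSet.ncard = G.edgeFinset.card := by
    rw [← SimpleGraph.coe_edgeFinset, Set.ncard_coe_finset]
  rw [h2, ← h1]
  unfold ee
  refine sum_congr rfl fun v _ => ?_
  rw [← SimpleGraph.card_neighborFinset_eq_degree]
  congr 1
  ext w
  rw [mem_nb, SimpleGraph.mem_neighborFinset]
  simp

theorem aux_dens {ε k T₀ w e : ℝ} (hε : 0 < ε) (hε1 : ε ≤ 1) (hk : 0 ≤ k) (hT : 0 ≤ T₀)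
    (h1 : 16 * T₀ ≤ ε * k) (h2 : (1 + ε) * k ≤ w) (h3 : 2 * ((1 + ε) * k) * (w - 2 * T₀) ≤ e) :
    (2 + 3 * ε / 2) * k * w ≤ e := by
  have h4 : 16 * T₀ ≤ ε * w := by
    have : ε * k ≤ ε * w := mul_le_mul_of_nonneg_left (by nlinarith) hε.le
    linarith
  have h5 : k * (16 * T₀) ≤ k * (ε * w) := mul_le_mul_of_nonneg_left h4 hk
  have h6 : ε * (k * T₀) ≤ 1 * (k * T₀) := mul_le_mul_of_nonneg_right hε1 (mul_nonneg hk hT)
  have h7 : 2 * ((1 + ε) * k) * (w - 2 * T₀) =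
    (2 + 2 * ε) * k * w - 4 * (k * T₀) - 4 * (ε * (k * T₀)) := by ring
  have h8 : (2 + 3 * ε / 2) * k * w = (2 + 2 * ε) * k * w - k * (ε * w) / 2 := by ring
  linarith

theorem aux_a {d b t a : ℝ} (hd : 0 < d) (hb : 20 / d ≤ b) (ht : 0 ≤ t) (h : b * t ≤ a) :
    20 * t ≤ d * a := by
  rw [div_le_iff₀ hd] at hb
  have h1 : d * (b * t) ≤ d * a := mul_le_mul_of_nonneg_left h hd.le
  have h2 : 20 * t ≤ (b * d) * t := mul_le_mul_of_nonneg_right hb ht
  linarith [mul_comm b d, mul_assoc d b t, mul_comm (b * d) t, mul_assoc b d t,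
    mul_left_comm b d t]

theorem aux_b {M T₀ r d γ k t : ℝ} (hM : M ≤ T₀) (hr : 0 ≤ r) (hd : 0 < d) (hγ : 0 < γ)
    (h : 12 * T₀ * (r + 1) / (d * γ) + 1 ≤ k) (ht : γ * k ≤ t) :
    6 * (2 * M) * (r + 1) < d * t := by
  have h6 : 12 * T₀ * (r + 1) / (d * γ) < k := by linarith
  rw [div_lt_iff₀ (mul_pos hd hγ)] at h6
  have h8 : M * (r + 1) ≤ T₀ * (r + 1) := mul_le_mul_of_nonneg_right hM (by linarith)
  have h9 : d * (γ * k) ≤ d * t := mul_le_mul_of_nonneg_left ht hd.le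
  have h10 : k * (d * γ) = d * (γ * k) := by ring
  linarith

theorem aux_c {M T₀ d γ k t : ℝ} (hM : M ≤ T₀) (hd : 0 < d) (hγ : 0 < γ)
    (h : 6 * T₀ * (1 / d + 3) / γ ≤ k) (ht : γ * k ≤ t) :
    3 * (2 * M) * (1 / d + 3) ≤ t := by
  rw [div_le_iff₀ hγ] at h
  have h7 : (0 : ℝ) ≤ 1 / d + 3 := by positivity
  have h8 : M * (1 / d + 3) ≤ T₀ * (1 / d + 3) := mul_le_mul_of_nonneg_right hM h7
  linarith [mul_comm γ k]

theorem aux_e {ε b t a : ℝ} (hε : 0 < ε) (hb : 800 / ε ≤ b) (ht : 0 ≤ t) (h : b * t ≤ a) :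
    (1 - ε / 40) * a ≤ a - 20 * t := by
  rw [div_le_iff₀ hε] at hb
  have h1 : ε * (b * t) ≤ ε * a := mul_le_mul_of_nonneg_left h hε.le
  have h2 : 800 * t ≤ (b * ε) * t := mul_le_mul_of_nonneg_right hb ht
  have h3 : ε * (b * t) = (b * ε) * t := by ring
  linarith

theorem aux_f {ε k s : ℝ} (hε : 0 < ε) (hε1 : ε ≤ 1) (hk : 0 ≤ k)
    (h6 : (1 + ε / 8) * k - ε / 50 * k ≤ s) : k ≤ (1 - ε / 40) * s := by
  have h7 : 0 ≤ 1 - ε / 40 := by linarith
  refine le_trans ?_ (mul_le_mul_of_nonneg_left h6 h7)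
  have h8 : (1 - ε / 40) * ((1 + ε / 8) * k - ε / 50 * k) =
      k + ε * k * (2 / 25 - 21 / 8000 * ε) := by ring
  rw [h8]
  have h9 : 0 ≤ ε * k * (2 / 25 - 21 / 8000 * ε) := by
    apply mul_nonneg (mul_nonneg hε.le hk)
    linarith
  linarith

theorem aux_g {ε k T : ℝ} (hε : 0 < ε) (hk : 1 ≤ k) (h : (T + 2) ^ 2 ≤ k) :
    (T + 2) ^ 2 ≤ (1 + ε) * k := by
  have : 0 ≤ ε * k := by positivity
  linarith

theorem aux_h {ε k : ℝ} (hε : 0 < ε) (hk : 1 ≤ k) (hε1 : ε ≤ 1) : ¬ (1 + ε / 8) * k ≤ ε / 100 * k := by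
  intro h
  have h1 : ε * k ≤ 1 * k := mul_le_mul_of_nonneg_right hε1 (by linarith)
  have h2 : 0 ≤ ε * k := by positivity
  linarith

theorem all_of (hBLB : T_BLB) (hMAD : T_MAD) (hIND : T_IND) (hLNK : T_LNK) (hCNT : T_CNT) :
    T_ALL := by
  intro ε₀ hε₀
  obtain ⟨ε, hε, hε1, hεε⟩ : ∃ ε : ℝ, 0 < ε ∧ ε ≤ 1 ∧ ε ≤ ε₀ :=
    ⟨min ε₀ 1, lt_min hε₀ one_pos, min_le_right _ _, min_le_left _ _⟩
  obtain ⟨d, hd, hd1, hB⟩ := hBLB ε hε hε1
  obtain ⟨b, hb1, hb2, hb3⟩ : ∃ b : ℕ, 1 ≤ b ∧ 800 / ε ≤ b ∧ 20 / d ≤ b := by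
    refine ⟨⌈800 / ε⌉₊ + ⌈20 / d⌉₊ + 1, by omega, ?_, ?_⟩
    · have := Nat.le_ceil (800 / ε)
      have h0 : (0 : ℝ) ≤ (⌈20 / d⌉₊ : ℝ) := Nat.cast_nonneg _
      push_cast
      linarith
    · have := Nat.le_ceil (20 / d)
      have h0 : (0 : ℝ) ≤ (⌈800 / ε⌉₊ : ℝ) := Nat.cast_nonneg _
      push_cast
      linarith
  obtain ⟨r, T₀, k₀, γ, hγ, hB⟩ := hB b hb1
  obtain ⟨N, hN⟩ : ∃ N : ℕ, max (max ((2 * T₀ + 2 : ℝ) ^ 2) (16 * T₀ / ε))
      (max (12 * T₀ * (r + 1) / (d * γ) + 1) (max (6 * T₀ * (1 / d + 3) / γ) (1 / γ))) ≤ N :=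
    exists_nat_ge _
  refine ⟨max k₀ (max N 1), ?_⟩
  intro k hk n G hn he
  have hk0 : k₀ ≤ k := (le_max_left _ _).trans hk
  have hkN : (N : ℝ) ≤ k := by exact_mod_cast ((le_max_left _ _).trans (le_max_right _ _)).trans hk
  have hk1 : 1 ≤ k := ((le_max_right _ _).trans (le_max_right _ _)).trans hk
  have hkR : (1 : ℝ) ≤ k := by exact_mod_cast hk1
  have hN' := hN.trans hkN
  simp only [max_le_iff] at hN'
  obtain ⟨⟨hc1, hc2⟩, hc3, hc4, hc5⟩ := hN'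
  by_contra hrun
  -- the highly connected subgraph
  have hT0 : (0 : ℝ) ≤ T₀ := Nat.cast_nonneg _
  have hnR : (0 : ℝ) < n := by exact_mod_cast hn
  have hεk : 0 < ε * k := by positivity
  obtain ⟨W, hW1, hW2, hW3⟩ := hMAD G (2 * T₀) ((1 + ε) * k) (by
      push_cast
      exact aux_g hε hkR hc1) (by simpa using hn) (by
      rw [ee_univ, Fintype.card_fin]
      push_cast
      have h1 : (1 + ε) * k * n ≤ (1 + ε₀) * k * n := by
        have h2 : (0 : ℝ) ≤ k * n := by positivity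
        have h3 := mul_le_mul_of_nonneg_right (by linarith : 1 + ε ≤ 1 + ε₀) h2
        linarith [mul_assoc (1 + ε) (k : ℝ) n, mul_assoc (1 + ε₀) (k : ℝ) n]
      linarith)
  obtain ⟨V', _, G', hV', hee', hCon, hRunG⟩ := hIND G (2 * T₀) W hW3
  have hrun' : ¬ HasRun k G' := fun h => hrun (hRunG k h)
  have hV'R : (1 + ε) * k ≤ Fintype.card V' := by
    rw [hV']
    exact hW1
  have hV'pos : 0 < Fintype.card V' := by
    have h1 : (0 : ℝ) < (1 + ε) * k := by positivity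
    have : (0 : ℝ) < Fintype.card V' := by linarith
    exact_mod_cast this
  have hdens : (2 + 3 * ε / 2) * k * Fintype.card V' ≤ ee G' univ univ := by
    rw [hee', hV']
    rw [div_le_iff₀ hε] at hc2
    refine aux_dens hε hε1 (by linarith) hT0 (by linarith) hW1 ?_
    refine le_trans (le_of_eq ?_) hW2
    push_cast
    ring
  obtain ⟨T, A, B, t, hTT, hAB, hdis, hsum⟩ := hB k hk0 G' hrun' hV'pos hdens
  -- the hub
  obtain ⟨M, rfl⟩ : ∃ M, T = M + 1 := by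
    cases T with
    | zero =>
      simp only [univ_eq_empty, sum_empty] at hsum
      have : 0 < (1 + ε / 8) * k := by positivity
      linarith
    | succ M => exact ⟨M, rfl⟩
  have hMT : (M : ℝ) ≤ T₀ := by exact_mod_cast (by omega : M ≤ T₀)
  have hM0 : (0 : ℝ) ≤ M := Nat.cast_nonneg _
  have hdγ : 0 < d * γ := by positivity
  have ht1 : ∀ i, (20 * t i : ℝ) ≤ d * (A i).card := by
    intro i
    obtain ⟨_, _, h3, _⟩ := hAB i
    exact aux_a hd hb3 (Nat.cast_nonneg _) (by exact_mod_cast h3)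
  have ht2 : ∀ i, 6 * (2 * M) * (r + 1 : ℝ) < d * t i := by
    intro i
    obtain ⟨_, _, _, _, h5, _⟩ := hAB i
    exact aux_b hMT (Nat.cast_nonneg _) hd hγ hc3 h5
  have ht3 : ∀ i, 3 * (2 * M) * (1 / d + 3) ≤ t i := by
    intro i
    obtain ⟨_, _, _, _, h5, _⟩ := hAB i
    exact aux_c hMT hd hγ hc4 h5
  have ht4 : ∀ i, 1 ≤ t i := by
    intro i
    obtain ⟨_, _, _, _, h5, _⟩ := hAB i
    rw [div_le_iff₀ hγ] at hc5
    have h6 : (1 : ℝ) ≤ t i := by linarith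
    exact_mod_cast h6
  have hCon' : Con G' (2 * M) := hCon.mono (by omega)
  obtain ⟨p, hp⟩ := hLNK G' M r d (fun i => A i.castSucc) (fun i => B i.castSucc)
    (fun i => t i.castSucc) (A (Fin.last M)) (B (Fin.last M)) (t (Fin.last M)) hCon' hd hd1
    (fun i => by
      obtain ⟨h1, h2, h3, h4, h5, h6, h7⟩ := hAB i.castSucc
      exact ⟨h1, h2, ht1 _, h4, h7, ht2 _, ht3 _⟩)
    (hAB _).1 (hAB _).2.1 (ht1 _) (hAB _).2.2.2.2.2.2 (ht3 _) (ht4 _)
    (fun i j hij v hv => hdis i.castSucc j.castSucc (by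
      intro h
      exact hij (Fin.castSucc_injective _ h)) v hv)
    (fun i v hv => hdis i.castSucc (Fin.last M) (Fin.castSucc_lt_last i).ne v hv)
  -- the numbers
  have hcard : ∀ i, 20 * t i ≤ (A i).card := by
    intro i
    have h1 := ht1 i
    have h2 : (0 : ℝ) ≤ (A i).card := Nat.cast_nonneg _
    have h3 : (20 * t i : ℝ) ≤ (A i).card := by nlinarith
    exact_mod_cast h3
  have hu : ∀ i, (1 - ε / 40) * ((A i).card : ℝ) ≤ (((A i).card - 20 * t i : ℕ) : ℝ) := by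
    intro i
    rw [Nat.cast_sub (hcard i)]
    push_cast
    obtain ⟨_, _, h3, _⟩ := hAB i
    exact aux_e hε hb2 (Nat.cast_nonneg _) (by exact_mod_cast h3)
  apply hrun'
  refine hCNT G' M k p (fun i => (A i.castSucc).card - 20 * t i.castSucc) ?_ ?_ ?_
  · intro I hI s hs
    refine hp I hI s fun i hi => ?_
    have h1 := hs i hi
    have h2 := hcard i.castSucc
    omega
  · intro j
    have h1 : ((k : ℕ) : ℝ) ≤ ((∑ i ∈ univ.erase j, ((A i.castSucc).card - 20 * t i.castSucc) : ℕ) : ℝ) := by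
      rw [Nat.cast_sum]
      have h2 : ∑ i ∈ univ.erase j, (1 - ε / 40) * ((A i.castSucc).card : ℝ) ≤
          ∑ i ∈ univ.erase j, (((A i.castSucc).card - 20 * t i.castSucc : ℕ) : ℝ) :=
        sum_le_sum fun i _ => hu _
      refine le_trans ?_ h2
      rw [← mul_sum]
      have h3 : ∑ i ∈ univ.erase j, ((A i.castSucc).card : ℝ) + ((A j.castSucc).card : ℝ) =
          ∑ i : Fin M, ((A i.castSucc).card : ℝ) := sum_erase_add _ _ (mem_univ j)
      rw [Fin.sum_univ_castSucc] at hsum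
      have h4 := (hAB (Fin.last M)).2.2.2.2.2.1
      have h5 := (hAB j.castSucc).2.2.2.2.2.1
      have h6 : (1 + ε / 8) * k - ε / 50 * k ≤ ∑ i ∈ univ.erase j, ((A i.castSucc).card : ℝ) := by
        linarith
      exact aux_f hε hε1 (by linarith) h6
    exact_mod_cast h1
  · by_contra hM
    have hM' : M = 0 := by omega
    subst hM'
    rw [Fin.sum_univ_castSucc] at hsum
    have h4 := (hAB (Fin.last 0)).2.2.2.2.2.1
    simp only [univ_eq_empty, sum_empty, zero_add] at hsum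
    exact aux_h hε hkR hε1 (hsum.trans h4)

end Pool.Agent.H30.VR
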