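import Pool.Agent.H30.VR.Asm
import Pool.Agent.H36.VR.AVE
import Pool.Agent.H36.VR.MAD
import Pool.Agent.H36.VR.MIN
import Pool.Agent.H36.VR.PAR
import Pool.Agent.H14.VR.BFS
import Pool.Agent.H14.VR.DEN
import Pool.Agent.H35.VR.BLB
import Pool.Agent.H35.VR.FWE
import Pool.Agent.H4.VR.BLK
import Pool.Agent.H88.VR.BSL
import Pool.Agent.H88.VR.POS
import Pool.Agent.H88.VR.LNK
import Pool.Agent.H79.VR.CAT
import Pool.Agent.H79.VR.INC
import Pool.Agent.H76.VR.CNT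
import Pool.Agent.H76.VR.HCN
import Pool.Agent.H76.VR.HLF
import Pool.Agent.H76.VR.SPL
import Pool.Agent.H63.VR.Surg
import Pool.Agent.H63.VR.FW
import Pool.Agent.H63.VR.FHB
import Pool.Agent.H84.VR.DFS
import Pool.Agent.H84.VR.FLX
import Pool.Agent.H84.VR.MWS
import Pool.Agent.H84.VR.STP
import Pool.Agent.H84.VR.WGT
import Pool.Agent.H89.VR.IND
import Pool.Agent.H86.VR.LKA
import Pool.Agent.H13.VR.MNG
import Pool.Agent.H13.VR.RUN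
import Pool.Agent.H67.VR.ORD

/-!
# MP_d32443_co, asymptotic form: all rows
-/

set_option autoImplicit false

namespace Pool.Agent.H30.VR.All

open Pool.Agent.H30.VR

theorem aRUN : T_RUN := Pool.Agent.H13.VR.pf_RUN Pool.Agent.H88.VR.pf_BSL

theorem aDEN : T_DEN := Pool.Agent.H14.VR.pf_DEN Pool.Agent.H14.VR.pf_BFS
  Pool.Agent.H36.VR.pf_MIN Pool.Agent.H88.VR.pf_POS aRUN Pool.Agent.H36.VR.pf_PAR

theorem aINC : T_INC := Pool.Agent.H79.VR.pf_INC Pool.Agent.H36.VR.pf_AVE Pool.Agent.H4.VR.pf_BLK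

theorem aWGT : T_WGT := Pool.Agent.H84.VR.pf_WGT Pool.Agent.H76.VR.pf_HLF

theorem aSTP : T_STP := Pool.Agent.H84.VR.pf_STP aDEN aINC aWGT

theorem aBLB : T_BLB := Pool.Agent.H35.VR.pf_BLB aSTP Pool.Agent.H84.VR.pf_MWS
  Pool.Agent.H76.VR.pf_SPL

theorem aFWE : T_FWE := Pool.Agent.H35.VR.pf_FWE Pool.Agent.H63.VR.pf_SWP
  Pool.Agent.H63.VR.pf_SHT Pool.Agent.H67.VR.pf_ORD

theorem aFWC : T_FWC := Pool.Agent.H63.VR.pf_FWC Pool.Agent.H63.VR.pf_SHT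

theorem aFEW : T_FEW := Pool.Agent.H63.VR.pf_FEW aFWE aFWC

theorem aFHB : T_FHB := Pool.Agent.H63.VR.pf_FHB Pool.Agent.H63.VR.pf_CUT

theorem aLKA : T_LKA := Pool.Agent.H86.VR.pf_LKA Pool.Agent.H13.VR.pf_MNG aFEW aFHB

theorem aFLX : T_FLX := Pool.Agent.H84.VR.pf_FLX Pool.Agent.H84.VR.pf_DFS

theorem aLNK : T_LNK := Pool.Agent.H88.VR.pf_LNK aLKA aFLX Pool.Agent.H76.VR.pf_HCN
  Pool.Agent.H79.VR.pf_CAT

theorem all : T_ALL := all_of aBLB Pool.Agent.H36.VR.pf_MAD Pool.Agent.H89.VR.pf_IND aLNK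
  Pool.Agent.H76.VR.pf_CNT

end Pool.Agent.H30.VR.All
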