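import Pool.Agent.H30.VR.Defs
import Pool.Agent.H48.CE.CYC

/-!
# MP_d32443_co, asymptotic form: basic lemmas
-/

set_option autoImplicit false

namespace Pool.Agent.H30.VR

open Pool.Agent.H48.CE Finset

variable {V : Type} {G : SimpleGraph V}

theorem nb_mono {S T : Finset V} (h : S ⊆ T) (v : V) : nb G S v ⊆ nb G T v := by
  intro w hw
  rw [mem_nb] at hw ⊢
  exact ⟨h hw.1, hw.2⟩

theorem nb_subset (S : Finset V) (v : V) : nb G S v ⊆ S := by
  intro w hw
  exact (mem_nb.1 hw).1

/-- the number of edges as the size of a set of pairs -/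
theorem ee_eq_card (A B : Finset V) :
    ee G A B = by
      classical exact ((A ×ˢ B).filter (fun p => G.Adj p.1 p.2)).card := by
  classical
  unfold ee
  rw [card_filter, sum_product]
  refine sum_congr rfl fun a _ => ?_
  unfold nb
  rw [card_filter]

theorem ee_comm (A B : Finset V) : ee G A B = ee G B A := by
  classical
  rw [ee_eq_card, ee_eq_card]
  refine card_bij (fun p _ => (p.2, p.1)) ?_ ?_ ?_
  · intro p hp
    rw [mem_filter, mem_product] at hp ⊢
    exact ⟨⟨hp.1.2, hp.1.1⟩, hp.2.symm⟩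
  · intro p _ q _ h
    rw [Prod.mk.injEq] at h
    exact Prod.ext h.2 h.1
  · intro p hp
    rw [mem_filter, mem_product] at hp
    exact ⟨(p.2, p.1), by rw [mem_filter, mem_product]; exact ⟨⟨hp.1.2, hp.1.1⟩, hp.2.symm⟩, rfl⟩

theorem ee_mono {A A' B B' : Finset V} (hA : A ⊆ A') (hB : B ⊆ B') : ee G A B ≤ ee G A' B' := by
  unfold ee
  calc ∑ a ∈ A, (nb G B a).card ≤ ∑ a ∈ A, (nb G B' a).card :=
        sum_le_sum fun a _ => card_le_card (nb_mono hB a)
    _ ≤ ∑ a ∈ A', (nb G B' a).card := sum_le_sum_of_subset hA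

theorem ee_le_mul (A B : Finset V) : ee G A B ≤ A.card * B.card := by
  unfold ee
  calc ∑ a ∈ A, (nb G B a).card ≤ ∑ _a ∈ A, B.card :=
        sum_le_sum fun a _ => card_le_card (nb_subset B a)
    _ = A.card * B.card := by rw [sum_const, smul_eq_mul]

theorem ee_union_left [DecidableEq V] {A A' : Finset V} (h : Disjoint A A') (B : Finset V) :
    ee G (A ∪ A') B = ee G A B + ee G A' B := sum_union h

theorem ee_union_right [DecidableEq V] {B B' : Finset V} (h : Disjoint B B') (A : Finset V) :
    ee G A (B ∪ B') = ee G A B + ee G A B' := by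
  rw [ee_comm, ee_union_left h, ee_comm, ee_comm B' A]

theorem ee_singleton_left (a : V) (B : Finset V) : ee G {a} B = (nb G B a).card := by
  simp [ee]

theorem ee_singleton_right (b : V) (A : Finset V) : ee G A {b} = (nb G A b).card := by
  rw [ee_comm, ee_singleton_left]

theorem exists_adj_of_ee_pos {A B : Finset V} (h : 0 < ee G A B) : ∃ a ∈ A, ∃ b ∈ B, G.Adj a b := by
  unfold ee at h
  obtain ⟨a, ha, h1⟩ := exists_ne_zero_of_sum_ne_zero h.ne'
  obtain ⟨b, hb⟩ := card_pos.1 (Nat.pos_of_ne_zero h1)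
  rw [mem_nb] at hb
  exact ⟨a, ha, b, hb.1, hb.2⟩

/-! ### lower regular pairs -/

theorem LR.symm {d : ℝ} {t : ℕ} {A B : Finset V} (h : LR G d t A B) : LR G d t B A := by
  intro B' hB A' hA h1 h2
  have := h A' hA B' hB h2 h1
  rw [ee_comm]
  linarith [mul_right_comm d (A'.card : ℝ) (B'.card : ℝ)]

theorem LR.mono {d : ℝ} {t : ℕ} {A B A' B' : Finset V} (h : LR G d t A B) (hA : A' ⊆ A)
    (hB : B' ⊆ B) : LR G d t A' B' :=
  fun A'' h1 B'' h2 => h A'' (h1.trans hA) B'' (h2.trans hB)

/-- no empty pair of sets with at least `t` elements -/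
theorem LR.hole {d : ℝ} {t : ℕ} {A B : Finset V} (h : LR G d t A B) (hd : 0 < d) (ht : 1 ≤ t)
    {A' B' : Finset V} (hA : A' ⊆ A) (hB : B' ⊆ B) (h1 : t ≤ A'.card) (h2 : t ≤ B'.card) :
    ∃ a ∈ A', ∃ b ∈ B', G.Adj a b := by
  apply exists_adj_of_ee_pos
  have h3 := h A' hA B' hB h1 h2
  have h4 : (0 : ℝ) < A'.card := by exact_mod_cast (by omega : 0 < A'.card)
  have h5 : (0 : ℝ) < B'.card := by exact_mod_cast (by omega : 0 < B'.card)
  have h6 : (0 : ℝ) < ee G A' B' := lt_of_lt_of_le (by positivity) h3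
  exact_mod_cast h6

open scoped Classical in
/-- fewer than `t` vertices of `A` have fewer than `d |B'|` neighbours in `B'` -/
theorem LR.typ {d : ℝ} {t : ℕ} {A B : Finset V} (h : LR G d t A B) (ht : 1 ≤ t) {B' : Finset V}
    (hB : B' ⊆ B) (hB' : t ≤ B'.card) :
    (A.filter (fun a => ((nb G B' a).card : ℝ) < d * B'.card)).card < t := by
  by_contra hcon
  push Not at hcon
  have h1 := h _ (filter_subset _ A) B' hB hcon hB'
  unfold ee at h1
  rw [Nat.cast_sum] at h1
  have h2 : ∑ a ∈ A.filter (fun a => ((nb G B' a).card : ℝ) < d * B'.card),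
      ((nb G B' a).card : ℝ) < ∑ a ∈ A.filter (fun a => ((nb G B' a).card : ℝ) < d * B'.card),
        d * (B'.card : ℝ) := by
    apply sum_lt_sum_of_nonempty
    · rw [← card_pos]
      omega
    · intro a ha
      exact (mem_filter.1 ha).2
  rw [sum_const, nsmul_eq_mul] at h2
  linarith [mul_assoc d ((A.filter (fun a => ((nb G B' a).card : ℝ) < d * B'.card)).card : ℝ)
    (B'.card : ℝ), mul_left_comm d ((A.filter (fun a => ((nb G B' a).card : ℝ) <
      d * B'.card)).card : ℝ) (B'.card : ℝ)]

/-! ### paths and cycles from lists -/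

theorem Pt.symm {x y : V} {l : List V} (h : Pt G x l y) : Pt G y l.reverse x := by
  have h1 : y :: (l.reverse ++ [x]) = (x :: (l ++ [y])).reverse := by simp
  refine ⟨?_, ?_⟩
  · rw [h1, List.nodup_reverse]
    exact h.1
  · rw [h1, List.isChain_reverse]
    exact h.2.imp fun _ _ h => h.symm

/-- a closed list without repetition gives a cycle -/
theorem cy_of_list {l : List V} (h3 : 3 ≤ l.length) (hn : l.Nodup) (hc : l.IsChain G.Adj)
    {x y : V} (hx : l.head? = some x) (hy : l.getLast? = some y) (hadj : G.Adj y x) :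
    Cy G l.length := by
  cases l with
  | nil => simp at h3
  | cons a m =>
    rw [List.head?_cons, Option.some.injEq] at hx
    subst hx
    have hm : m ≠ [] := by
      rintro rfl
      simp at h3
    obtain ⟨m', z, rfl⟩ : ∃ m' z, m = m' ++ [z] :=
      ⟨m.dropLast, m.getLast hm, (List.dropLast_append_getLast hm).symm⟩
    have hz : z = y := by
      rw [← List.cons_append, List.getLast?_append] at hy
      simpa using hy
    subst hz
    have hm' : m' ≠ [] := by
      rintro rfl
      simp at h3
    obtain ⟨v, c, hc1, hc2⟩ := pf_CYC G a m' z hm' hn hc hadj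
    refine ⟨v, c, hc1, ?_⟩
    rw [hc2]
    simp

/-- two paths between the same vertices with disjoint interiors form a cycle -/
theorem cy_of_two {x y : V} {l m : List V} (hl : Pt G x l y) (hm : Pt G x m y)
    (hd : ∀ v ∈ l, v ∉ m) (h1 : 1 ≤ l.length + m.length) : Cy G (l.length + m.length + 2) := by
  have hms := hm.symm
  have h0 : (x :: (l ++ (y :: m.reverse))).length = l.length + m.length + 2 := by
    simp
    omega
  rw [← h0]
  have hl1 := hl.1
  have hl2 := hl.2
  have hm1 := hms.1
  have hm2 := hms.2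
  have hcatm : (y :: (m.reverse ++ [x])) = (y :: m.reverse) ++ [x] := by simp
  rw [hcatm] at hm1 hm2
  rw [List.isChain_append] at hm2
  rw [List.nodup_append] at hm1
  have hlast : (x :: (l ++ (y :: m.reverse))).getLast? = (y :: m.reverse).getLast? := by
    rw [show x :: (l ++ (y :: m.reverse)) = (x :: l) ++ (y :: m.reverse) by simp,
      List.getLast?_append_of_ne_nil _ (by simp)]
  obtain ⟨z, hz⟩ : ∃ z, (y :: m.reverse).getLast? = some z := by
    rw [List.getLast?_eq_some_getLast (by simp)]
    exact ⟨_, rfl⟩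
  refine cy_of_list (x := x) (y := z) ?_ ?_ ?_ (by simp) (by rw [hlast, hz]) ?_
  · rw [h0]
    omega
  · rw [show x :: (l ++ (y :: m.reverse)) = (x :: (l ++ [y])) ++ m.reverse by simp,
      List.nodup_append]
    refine ⟨hl1, ?_, ?_⟩
    · exact (List.nodup_cons.1 hm1.1).2
    · intro a ha b hb hab
      subst hab
      rw [List.mem_cons, List.mem_append, List.mem_singleton] at ha
      rcases ha with rfl | ha | rfl
      · exact hm1.2.2 a (List.mem_cons_of_mem _ hb) a (by simp) rfl
      · exact hd a ha (by simpa using hb)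
      · exact (List.nodup_cons.1 hm1.1).1 hb
  · rw [show x :: (l ++ (y :: m.reverse)) = (x :: l) ++ (y :: m.reverse) by simp,
      List.isChain_append]
    rw [show x :: (l ++ [y]) = (x :: l) ++ [y] by simp, List.isChain_append] at hl2
    refine ⟨hl2.1, hm2.1, ?_⟩
    intro a ha b hb
    refine hl2.2.2 a ha b ?_
    simpa using hb
  · exact hm2.2.2 z hz x (by simp)

/-- a path from a function -/
theorem pt_of_fun {p : ℕ → V} {m : ℕ} (hm : 1 ≤ m) (hadj : ∀ i < m, G.Adj (p i) (p (i + 1)))
    (hinj : ∀ i ≤ m, ∀ j ≤ m, p i = p j → i = j) :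
    Pt G (p 0) ((List.range (m - 1)).map (fun i => p (i + 1))) (p m) := by
  have h0 : p 0 :: ((List.range (m - 1)).map (fun i => p (i + 1)) ++ [p m]) =
      (List.range (m + 1)).map p := by
    obtain ⟨n, rfl⟩ : ∃ n, m = n + 1 := ⟨m - 1, by omega⟩
    rw [Nat.add_sub_cancel, List.range_succ_eq_map, List.map_cons, List.map_map,
      List.range_succ, List.map_append]
    rfl
  unfold Pt
  rw [h0]
  refine ⟨?_, ?_⟩
  · refine List.Nodup.map_on ?_ List.nodup_range
    intro i hi j hj h
    rw [List.mem_range] at hi hj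
    exact hinj i (by omega) j (by omega) h
  · rw [List.isChain_map]
    have h1 : (List.range (m + 1)).IsChain (fun i j => j = i + 1 ∧ i < m) := by
      rw [List.isChain_iff_getElem]
      intro i hi
      rw [List.length_range] at hi
      simp
      omega
    exact h1.imp fun i j h => by
      rw [h.1]
      exact hadj i h.2

end Pool.Agent.H30.VR
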