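import Pool.Agent.H48.CE.Defs

/-!
# MP_d32443_co: the asymptotic form of the conjecture on consecutive even cycle lengths

Definitions. `HasRun k G` and `nb G S v` (the neighbours of `v` in `S`) are those of
`Pool.Agent.H48.CE.Defs`.
-/

set_option autoImplicit false

namespace Pool.Agent.H30.VR

open Pool.Agent.H48.CE

/-- The number of pairs `(a, b)`, `a` in `A`, `b` in `B`, which are edges of `G`. -/
noncomputable def ee {V : Type} (G : SimpleGraph V) (A B : Finset V) : ℕ :=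
  ∑ a ∈ A, (nb G B a).card

/-- Subsets of `A` and `B` with at least `t` elements span a graph of density at least `d`. -/
def LR {V : Type} (G : SimpleGraph V) (d : ℝ) (t : ℕ) (A B : Finset V) : Prop :=
  ∀ A' ⊆ A, ∀ B' ⊆ B, t ≤ A'.card → t ≤ B'.card →
    d * (A'.card : ℝ) * (B'.card : ℝ) ≤ (ee G A' B' : ℝ)

/-- The bipartite subgraph between `P` and `Q`. -/
def bip {V : Type} (G : SimpleGraph V) (P Q : Finset V) : SimpleGraph V where
  Adj u v := G.Adj u v ∧ ((u ∈ P ∧ v ∈ Q) ∨ (u ∈ Q ∧ v ∈ P))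
  symm := ⟨fun _ _ h => ⟨h.1.symm, h.2.elim (fun h => Or.inr ⟨h.2, h.1⟩)
    (fun h => Or.inl ⟨h.2, h.1⟩)⟩⟩
  loopless := ⟨fun _ h => G.loopless.irrefl _ h.1⟩

/-- The list `x :: (l ++ [y])` is a path from `x` to `y` with the list `l` of interior vertices;
its length is `l.length + 1`. -/
def Pt {V : Type} (G : SimpleGraph V) (x : V) (l : List V) (y : V) : Prop :=
  (x :: (l ++ [y])).Nodup ∧ (x :: (l ++ [y])).IsChain G.Adj

/-- `G` has a cycle of length `n`. -/
def Cy {V : Type} (G : SimpleGraph V) (n : ℕ) : Prop :=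
  ∃ v : V, ∃ c : G.Walk v v, c.IsCycle ∧ c.length = n

/-- A cycle `c 0, c 1, …, c (n - 1)` with the chord `c 0, c r`. -/
structure Chd {V : Type} (H : SimpleGraph V) (n : ℕ) (c : ZMod n → V) (r : ZMod n) : Prop where
  four : 4 ≤ n
  inj : Function.Injective c
  adj : ∀ i, H.Adj (c i) (c (i + 1))
  chord : H.Adj (c 0) (c r)
  ne_one : r ≠ 1
  ne_neg : r ≠ -1

/-- Every separation of `G` with two proper sides has more than `T` vertices in the middle. -/
def Con {V : Type} [Fintype V] (G : SimpleGraph V) (T : ℕ) : Prop :=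
  ∀ A B : Finset V, (∀ x, x ∈ A ∨ x ∈ B) → (∀ x ∈ A, x ∉ B → ∀ y ∈ B, y ∉ A → ¬ G.Adj x y) →
    (∀ x, x ∈ A) ∨ (∀ x, x ∈ B) ∨ ∃ S : Finset V, (∀ x, x ∈ S ↔ x ∈ A ∧ x ∈ B) ∧ T < S.card

/-- A system of disjoint paths `Q i` from `a i` to vertices of `Y`. -/
structure PS {V ι : Type} (G : SimpleGraph V) (a : ι → V) (Y : Finset V) (Q : ι → List V) :
    Prop where
  chain : ∀ i, (Q i).IsChain G.Adj
  nodup : ∀ i, (Q i).Nodup
  head : ∀ i, (Q i).head? = some (a i)
  last : ∀ i, ∃ y ∈ Y, (Q i).getLast? = some y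
  disj : ∀ i j, i ≠ j → ∀ v ∈ Q i, v ∉ Q j

/-- The number of vertices of a system of paths. -/
def tl {V ι : Type} [Fintype ι] (Q : ι → List V) : ℕ := ∑ i, (Q i).length

/-- A system with the least number of vertices. -/
def MPS {V ι : Type} [Fintype ι] (G : SimpleGraph V) (a : ι → V) (Y : Finset V)
    (Q : ι → List V) : Prop :=
  PS G a Y Q ∧ ∀ Q', PS G a Y Q' → tl Q ≤ tl Q'

end Pool.Agent.H30.VR
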