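import Pool.Agent.H30.VR.Basic

/-!
# MP_d32443_co, asymptotic form: targets (board ver_modules, page H30_VER.md)

Every row proves one of these statements, with other statements of this file as hypotheses.
-/

set_option autoImplicit false

open Finset Pool.Agent.H48.CE

namespace Pool.Agent.H30.VR

/-! ## A. Sparse graphs: a run or a dense pair -/

/-- BFS: two consecutive layers of a breadth first search tree. The interior `l` of the connecting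
paths avoids the two layers; the length `2 * j` of the connecting paths is the same for all
vertices `x` of `A` and `y` of `S`, `y` not in `A`. -/
def T_BFS : Prop := ∀ {V : Type} [Fintype V] (G : SimpleGraph V) (X Y : Finset V) (D : ℕ),
  (∀ v ∈ X, v ∉ Y) → 1 ≤ D → 2 * D * (X.card + Y.card) < ee G X Y →
  ∃ P Q : Finset V, ((P ⊆ X ∧ Q ⊆ Y) ∨ (P ⊆ Y ∧ Q ⊆ X)) ∧ D * (P.card + Q.card) < ee G P Q ∧
    ∀ S ⊆ P, 2 ≤ S.card → ∃ A ⊆ S, A.Nonempty ∧ A ≠ S ∧ ∃ j : ℕ, 1 ≤ j ∧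
      ∀ x ∈ A, ∀ y ∈ S, y ∉ A → ∃ l : List V, l.length + 1 = 2 * j ∧ Pt G x l y ∧
        ∀ z ∈ l, z ∉ P ∧ z ∉ Q

/-- MIN: a subgraph of large minimal degree -/
def T_MIN : Prop := ∀ {V : Type} (G : SimpleGraph V) (P Q : Finset V) (D : ℕ),
  D * (P.card + Q.card) < ee G P Q →
  ∃ P' ⊆ P, ∃ Q' ⊆ Q, P'.Nonempty ∧ (∀ x ∈ P', D < (nb G Q' x).card) ∧
    ∀ y ∈ Q', D < (nb G P' y).card

open scoped Classical in
/-- POS: rotations of a longest path. `H` is 2-coloured by `col`. -/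
def T_POS : Prop := ∀ {V : Type} [Fintype V] (H : SimpleGraph V) (Z : Finset V) (col : V → Bool),
  Z.Nonempty → (∀ u v, H.Adj u v → col u ≠ col v) → (∀ x ∈ Z, 3 ≤ (nb H Z x).card) →
  (∀ x ∈ Z, ∀ y, H.Adj x y → y ∈ Z) →
  ∃ (n : ℕ) (c : ZMod n → V) (r : ZMod n) (U : Finset V), Chd H n c r ∧ U.Nonempty ∧
    (∀ u ∈ U, u ∈ Z ∧ ∃ i, u = c i) ∧ (∀ u ∈ U, ∀ x, H.Adj u x → ∃ i, x = c i) ∧
    (∀ u ∈ U, ∀ v ∈ U, col u = col v) ∧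
    (univ.filter (fun x => ∃ u ∈ U, H.Adj u x)).card ≤ 2 * U.card

/-- BSL: the lemma of Bondy and Simonovits. The path has length `m` and its vertices are on the
cycle. -/
def T_BSL : Prop := ∀ {V : Type} (H : SimpleGraph V) (n : ℕ) (c : ZMod n → V) (r : ZMod n),
  Chd H n c r → ∀ χ : ZMod n → Prop, (∃ i, χ i) → (∃ i, ¬ χ i) → ¬ (∀ i, χ (i + 1) ↔ ¬ χ i) →
  ∀ m : ℕ, 1 ≤ m → m < n → ∃ x y : ZMod n, χ x ∧ ¬ χ y ∧ ∃ l : List V, l.length + 1 = m ∧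
    Pt H (c x) l (c y) ∧ ∀ z ∈ l, ∃ i, z = c i

/-- RUN: a long cycle with a chord between two layers gives a run. -/
def T_RUN : Prop := ∀ {V : Type} (G : SimpleGraph V) (P Q : Finset V) (k n : ℕ) (c : ZMod n → V)
  (r : ZMod n), (∀ v ∈ P, v ∉ Q) → Chd (bip G P Q) n c r → 2 * k + 2 ≤ n →
  (∀ S ⊆ P, 2 ≤ S.card → ∃ A ⊆ S, A.Nonempty ∧ A ≠ S ∧ ∃ j : ℕ, 1 ≤ j ∧
      ∀ x ∈ A, ∀ y ∈ S, y ∉ A → ∃ l : List V, l.length + 1 = 2 * j ∧ Pt G x l y ∧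
        ∀ z ∈ l, z ∉ P ∧ z ∉ Q) →
  HasRun k G

/-- PAR: averaging -/
def T_PAR : Prop := ∀ {V : Type} (G : SimpleGraph V) (U W : Finset V) (k D N : ℕ),
  W.card ≤ 2 * k → (∀ u ∈ U, D ≤ (nb G W u).card) → N ≤ U.card → N ≤ W.card →
  ∃ A ⊆ U, ∃ B ⊆ W, A.card = N ∧ B.card = N ∧ D * N * N ≤ 2 * k * ee G A B

/-- DEN: a dense pair -/
def T_DEN : Prop := ∀ {V : Type} [Fintype V] (G : SimpleGraph V) (X Y : Finset V) (k D N : ℕ),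
  ¬ HasRun k G → (∀ v ∈ X, v ∉ Y) → 2 ≤ D → 2 * N ≤ D → 2 * D * (X.card + Y.card) < ee G X Y →
  ∃ A ⊆ X, ∃ B ⊆ Y, A.card = N ∧ B.card = N ∧ D * N * N ≤ 2 * k * ee G A B

/-! ## B. Lower regular pairs -/

/-- AVE: sparse pairs contain sparse pairs of prescribed size. -/
def T_AVE : Prop := ∀ {V : Type} (G : SimpleGraph V) (A B : Finset V) (d : ℝ) (q : ℕ), 1 ≤ q →
  q ≤ A.card → q ≤ B.card → (ee G A B : ℝ) < d * A.card * B.card →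
  ∃ A' ⊆ A, ∃ B' ⊆ B, A'.card = q ∧ B'.card = q ∧ (ee G A' B' : ℝ) < d * q * q

/-- BLK: density increment -/
def T_BLK : Prop := ∀ {V : Type} (G : SimpleGraph V) (A B A₀ B₀ : Finset V) (δ : ℝ) (r q : ℕ),
  2 ≤ r → 1 ≤ q → 0 < δ → A.card = r * q → B.card = r * q → A₀ ⊆ A → B₀ ⊆ B → A₀.card = q →
  B₀.card = q → δ * A.card * B.card ≤ ee G A B → (ee G A₀ B₀ : ℝ) < δ / 2 * q * q →
  ∃ A₁ ⊆ A, ∃ B₁ ⊆ B, A₁.card = q ∧ B₁.card = q ∧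
    δ * (1 + 1 / (2 * (r : ℝ) ^ 2)) * q * q ≤ ee G A₁ B₁

/-- INC: every dense pair contains a large lower regular pair. -/
def T_INC : Prop := ∀ {V : Type} (G : SimpleGraph V) (r s q : ℕ) (δ : ℝ) (A B : Finset V),
  2 ≤ r → 1 ≤ q → 0 < δ → 1 < δ * (1 + 1 / (2 * (r : ℝ) ^ 2)) ^ s → A.card = r ^ s * q →
  B.card = r ^ s * q → δ * A.card * B.card ≤ ee G A B →
  ∃ t : ℕ, q ≤ t ∧ r * t ≤ r ^ s * q ∧ ∃ A' ⊆ A, ∃ B' ⊆ B, A'.card = r * t ∧ B'.card = r * t ∧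
    LR G (δ / 2) t A' B'

/-! ## C. The fractional packing -/

/-- HLF: half of the edges inside `W` are between two parts of `W`. -/
def T_HLF : Prop := ∀ {V : Type} (G : SimpleGraph V) (W : Finset V),
  ∃ X ⊆ W, ∃ Y ⊆ W, (∀ v ∈ X, v ∉ Y) ∧ ee G W W ≤ 4 * ee G X Y

/-- WGT: small weights leave many edges of small weight. -/
def T_WGT : Prop := ∀ {V : Type} [Fintype V] (G : SimpleGraph V) (ε k : ℝ) (w : V → ℝ),
  0 < ε → ε ≤ 1 → 0 < k → 0 < Fintype.card V →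
  (2 + 3 * ε / 2) * k * Fintype.card V ≤ ee G univ univ → (∀ v, 0 ≤ w v) →
  ∑ v, w v ≤ (1 + ε / 4) * k →
  ∃ X Y : Finset V, (∀ v ∈ X, v ∉ Y) ∧ ε ^ 3 / 2400 * k * Fintype.card V < ee G X Y ∧
    ∀ x ∈ X, ∀ y ∈ Y, w x + w y < 1

/-- STP: a lower regular pair of small weight. The density `d` depends on `ε` only. -/
def T_STP : Prop := ∀ ε : ℝ, 0 < ε → ε ≤ 1 → ∃ d : ℝ, 0 < d ∧ d ≤ 1 ∧ ∀ r : ℕ, 2 ≤ r →
  ∃ (γ : ℝ) (k₀ : ℕ), 0 < γ ∧ ∀ k : ℕ, k₀ ≤ k → ∀ {V : Type} [Fintype V] (G : SimpleGraph V),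
    ¬ HasRun k G → 0 < Fintype.card V →
    (2 + 3 * ε / 2) * k * Fintype.card V ≤ ee G univ univ →
    ∀ w : V → ℝ, (∀ v, 0 ≤ w v) → ∑ v, w v ≤ (1 + ε / 4) * k →
    ∃ (A B : Finset V) (t : ℕ), (∀ v ∈ A, v ∉ B) ∧ A.card = r * t ∧ B.card = r * t ∧
      γ * k ≤ t ∧ (A.card : ℝ) ≤ ε / 100 * k ∧ LR G d t A B ∧
      ∑ v ∈ A, w v + ∑ v ∈ B, w v ≤ A.card

open scoped Classical in
/-- MWS: multiplicative weights. `F` is a family of pairs of disjoint sets of the same size;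
`c v` is the number of selected pairs which contain `v`. -/
def T_MWS : Prop := ∀ {V : Type} [Fintype V] (F : Set (Finset V × Finset V)) (K η γ : ℝ) (L : ℕ),
  0 < K → 0 < η → η ≤ 1 / 4 → 0 < γ → 1 ≤ L → 2 ≤ (1 + η) ^ L →
  4 * Real.exp (-(η ^ 2 * L / 2)) ≤ η ^ 2 →
  (∀ p ∈ F, (∀ v ∈ p.1, v ∉ p.2) ∧ p.2.card = p.1.card ∧ γ * K ≤ p.1.card ∧
    (p.1.card : ℝ) ≤ η * K) →
  (∀ w : V → ℝ, (∀ v, 0 ≤ w v) → ∑ v, w v ≤ K →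
    ∃ p ∈ F, ∑ v ∈ p.1, w v + ∑ v ∈ p.2, w v ≤ p.1.card) →
  ∃ (T : ℕ) (p : Fin T → Finset V × Finset V), (∀ j, p j ∈ F) ∧ T * γ ≤ L ∧
    (1 - 2 * η) * L * K ≤ ∑ j, ((p j).1.card : ℝ) ∧
    ∑ v, max 0 (((univ.filter (fun j => v ∈ (p j).1 ∨ v ∈ (p j).2)).card : ℝ) - L) ≤ η * K

open scoped Classical in
/-- SPL: rounding by Hall's theorem -/
def T_SPL : Prop := ∀ {V ι : Type} [Fintype V] [Fintype ι] (S : ι → Finset V) (x : V → ℝ)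
  (s : ι → ℕ), (∀ v, 0 ≤ x v) →
  (∀ v, x v * ((univ.filter (fun i => v ∈ S i)).card : ℝ) ≤ 1) →
  (∀ i, (s i : ℝ) ≤ ∑ v ∈ S i, x v) →
  ∃ S' : ι → Finset V, (∀ i, S' i ⊆ S i ∧ (S' i).card = s i) ∧
    ∀ i j, i ≠ j → ∀ v ∈ S' i, v ∉ S' j

/-- BLB: disjoint lower regular pairs of total size at least `(1 + ε / 8) k`. The numbers `d` and
`r`, `T₀` do not depend on `k`. -/
def T_BLB : Prop := ∀ ε : ℝ, 0 < ε → ε ≤ 1 → ∃ d : ℝ, 0 < d ∧ d ≤ 1 ∧ ∀ b : ℕ, 1 ≤ b →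
  ∃ (r T₀ k₀ : ℕ) (γ : ℝ), 0 < γ ∧ ∀ k : ℕ, k₀ ≤ k → ∀ {V : Type} [Fintype V]
    (G : SimpleGraph V), ¬ HasRun k G → 0 < Fintype.card V →
    (2 + 3 * ε / 2) * k * Fintype.card V ≤ ee G univ univ →
    ∃ (T : ℕ) (A B : Fin T → Finset V) (t : Fin T → ℕ), T ≤ T₀ ∧
      (∀ i, (∀ v ∈ A i, v ∉ B i) ∧ (A i).card = (B i).card ∧ b * t i ≤ (A i).card ∧
        (A i).card ≤ r * t i ∧ γ * k ≤ t i ∧ ((A i).card : ℝ) ≤ ε / 100 * k ∧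
        LR G d (t i) (A i) (B i)) ∧
      (∀ i j, i ≠ j → ∀ v, (v ∈ A i ∨ v ∈ B i) → v ∉ A j ∧ v ∉ B j) ∧
      (1 + ε / 8) * k ≤ ∑ i, ((A i).card : ℝ)

/-! ## D. Connectivity -/

/-- MAD: a highly connected subgraph which keeps the density -/
def T_MAD : Prop := ∀ {V : Type} [Fintype V] (G : SimpleGraph V) (T : ℕ) (c : ℝ),
  ((T : ℝ) + 2) ^ 2 ≤ c → 0 < Fintype.card V → 2 * c * Fintype.card V ≤ ee G univ univ →
  ∃ W : Finset V, c ≤ W.card ∧ 2 * c * (W.card - T) ≤ ee G W W ∧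
    ∀ A B : Finset V, (∀ x, x ∈ A ∨ x ∈ B ↔ x ∈ W) →
      (∀ x ∈ A, x ∉ B → ∀ y ∈ B, y ∉ A → ¬ G.Adj x y) →
      A = W ∨ B = W ∨ ∃ S : Finset V, (∀ x, x ∈ S ↔ x ∈ A ∧ x ∈ B) ∧ T < S.card

/-- IND: the subgraph on `W` as a graph on a type -/
def T_IND : Prop := ∀ {V : Type} [Fintype V] (G : SimpleGraph V) (T : ℕ) (W : Finset V),
  (∀ A B : Finset V, (∀ x, x ∈ A ∨ x ∈ B ↔ x ∈ W) →
      (∀ x ∈ A, x ∉ B → ∀ y ∈ B, y ∉ A → ¬ G.Adj x y) →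
      A = W ∨ B = W ∨ ∃ S : Finset V, (∀ x, x ∈ S ↔ x ∈ A ∧ x ∈ B) ∧ T < S.card) →
  ∃ (V' : Type) (_ : Fintype V') (G' : SimpleGraph V'),
    Fintype.card V' = W.card ∧ ee G' univ univ = ee G W W ∧ Con G' T ∧
    ∀ k, HasRun k G' → HasRun k G

/-- MNG: Menger's theorem -/
def T_MNG : Prop := ∀ {V ι : Type} [Fintype V] [Fintype ι] (G : SimpleGraph V)
  (T : ℕ) (a : ι → V) (Y : Finset V), Con G T → Fintype.card ι ≤ T + 1 → Function.Injective a →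
  Fintype.card ι ≤ Y.card → ∃ Q : ι → List V, PS G a Y Q

/-- SWP: exchange of two tails -/
def T_SWP : Prop := ∀ {V ι : Type} [Fintype ι] (G : SimpleGraph V) (a : ι → V) (Y : Finset V)
  (Q : ι → List V), PS G a Y Q → ∀ (i j : ι) (l₁ l₂ l₃ m₁ m₂ m₃ : List V) (x x' y y' : V),
  i ≠ j → Q i = l₁ ++ x :: (l₂ ++ x' :: l₃) → Q j = m₁ ++ y' :: (m₂ ++ y :: m₃) →
  G.Adj x y → G.Adj y' x' → ∃ Q', PS G a Y Q' ∧ tl Q' + l₂.length + m₂.length = tl Q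

/-- SHT: a shortcut in one path -/
def T_SHT : Prop := ∀ {V ι : Type} [Fintype ι] (G : SimpleGraph V) (a : ι → V) (Y : Finset V)
  (Q : ι → List V), PS G a Y Q → ∀ (i : ι) (l₁ l₂ l₃ m : List V) (x x' : V),
  Q i = l₁ ++ x :: (l₂ ++ x' :: l₃) → (∀ v ∈ m, ∀ j, v ∉ Q j) → m.Nodup →
  (x :: (m ++ [x'])).IsChain G.Adj → ∃ Q', PS G a Y Q' ∧ tl Q' + l₂.length = tl Q + m.length

/-- CUT: a path ends earlier -/
def T_CUT : Prop := ∀ {V ι : Type} [Fintype ι] (G : SimpleGraph V) (a : ι → V) (Y : Finset V)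
  (Q : ι → List V), PS G a Y Q → ∀ (i : ι) (l₁ l₂ : List V) (x y : V),
  Q i = l₁ ++ x :: l₂ → y ∈ Y → (∀ j, y ∉ Q j) → G.Adj x y →
  ∃ Q', PS G a Y Q' ∧ tl Q' + l₂.length = tl Q + 1

/-- ORD: sets of pairs of positions without decreasing pairs -/
def T_ORD : Prop := ∀ (E : Finset (ℕ × ℕ)) (X Y : Finset ℕ), (∀ p ∈ E, p.1 ∈ X ∧ p.2 ∈ Y) →
  (∀ p ∈ E, ∀ p' ∈ E, p.1 < p'.1 → p'.2 < p.2 → p'.1 = p.1 + 1 ∧ p.2 = p'.2 + 1) →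
  E.card ≤ X.card + 2 * Y.card

open scoped Classical in
/-- FWE: a shortest system has few edges between its vertices in `A` and its vertices in `B`. -/
def T_FWE : Prop := ∀ {V ι : Type} [Fintype V] [Fintype ι] (G : SimpleGraph V) (a : ι → V)
  (Y : Finset V) (Q : ι → List V) (A B : Finset V), MPS G a Y Q → (∀ v ∈ A, v ∉ B) →
  ee G (A.filter (fun v => ∃ i, v ∈ Q i)) (B.filter (fun v => ∃ i, v ∈ Q i)) ≤
    3 * Fintype.card ι * (A.card + B.card)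

open scoped Classical in
/-- FWC: if `B` has few vertices on a shortest system then so has `A`. -/
def T_FWC : Prop := ∀ {V ι : Type} [Fintype V] [Fintype ι] (G : SimpleGraph V) (a : ι → V)
  (Y : Finset V) (Q : ι → List V) (A B : Finset V) (d : ℝ) (t : ℕ), MPS G a Y Q →
  (∀ v ∈ A, v ∉ B) → LR G d t A B → 0 < d → d ≤ 1 → 2 * t ≤ B.card →
  3 * Fintype.card ι * (1 / d + 3) ≤ t →
  (B.filter (fun v => ∃ i, v ∈ Q i)).card < t →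
  (A.filter (fun v => ∃ i, v ∈ Q i)).card < 2 * t

open scoped Classical in
/-- FEW: a shortest system meets a lower regular pair in few vertices. -/
def T_FEW : Prop := ∀ {V ι : Type} [Fintype V] [Fintype ι] (G : SimpleGraph V) (a : ι → V)
  (Y : Finset V) (Q : ι → List V) (A B : Finset V) (d : ℝ) (t r : ℕ), MPS G a Y Q →
  (∀ v ∈ A, v ∉ B) → LR G d t A B → 0 < d → d ≤ 1 → A.card = B.card → 2 * t ≤ A.card →
  A.card ≤ r * t → (6 * Fintype.card ι * (r + 1 : ℝ)) < d * t →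
  3 * Fintype.card ι * (1 / d + 3) ≤ t →
  (A.filter (fun v => ∃ i, v ∈ Q i)).card < 2 * t ∧
  (B.filter (fun v => ∃ i, v ∈ Q i)).card < 2 * t

open scoped Classical in
/-- FHB: a shortest system to `Y ⊆ A` meets the pair `(A, B)` in few vertices. -/
def T_FHB : Prop := ∀ {V ι : Type} [Fintype V] [Fintype ι] (G : SimpleGraph V) (a : ι → V)
  (Y : Finset V) (Q : ι → List V) (A B : Finset V) (d : ℝ) (t : ℕ), MPS G a Y Q →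
  (∀ v ∈ A, v ∉ B) → (∀ i, a i ∉ A) → LR G d t A B → 0 < d → 1 ≤ t → Y ⊆ A →
  (A.filter (fun v => v ∉ Y)).card ≤ t →
  2 * t + Fintype.card ι ≤ A.card →
  (A.filter (fun v => ∃ i, v ∈ Q i)).card ≤ t + Fintype.card ι ∧
  (B.filter (fun v => ∃ i, v ∈ Q i)).card ≤ t + Fintype.card ι

/-! ## E. Flexible paths in a lower regular pair -/

/-- DFS: a long path in a pair without holes. It starts in `A`, its even vertices are in `A`. -/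
def T_DFS : Prop := ∀ {V : Type} (G : SimpleGraph V) (A B : Finset V) (t : ℕ),
  (∀ v ∈ A, v ∉ B) → A.card = B.card → 2 * t + 2 ≤ A.card →
  (∀ A' ⊆ A, ∀ B' ⊆ B, t ≤ A'.card → t ≤ B'.card → ∃ a ∈ A', ∃ b ∈ B', G.Adj a b) →
  ∃ (h : ℕ) (p : ℕ → V), A.card ≤ h + 2 * t + 2 ∧ (∀ i ≤ h, p (2 * i) ∈ A) ∧
    (∀ i < h, p (2 * i + 1) ∈ B) ∧ (∀ i < 2 * h, G.Adj (p i) (p (i + 1))) ∧
    ∀ i ≤ 2 * h, ∀ j ≤ 2 * h, p i = p j → i = j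

open scoped Classical in
/-- FLX: paths of all even lengths `2 s + 8` between two typical vertices -/
def T_FLX : Prop := ∀ {V : Type} (G : SimpleGraph V) (A B X : Finset V) (d : ℝ) (t : ℕ) (a a' : V),
  (∀ v ∈ A, v ∉ B) → A.card = B.card → 0 < d → 2 ≤ t → LR G d t A B →
  (20 * t : ℝ) ≤ d * A.card → d ≤ 1 → (A.filter (fun v => v ∈ X)).card ≤ 3 * t →
  (B.filter (fun v => v ∈ X)).card ≤ 3 * t → a ∈ A → a' ∈ A → a ≠ a' →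
  d * B.card ≤ (nb G B a).card → d * B.card ≤ (nb G B a').card →
  ∀ s : ℕ, s + 20 * t ≤ A.card → ∃ l : List V, l.length = 2 * s + 7 ∧ Pt G a l a' ∧
    ∀ v ∈ l, (v ∈ A ∨ v ∈ B) ∧ v ∉ X

open scoped Classical in
/-- HCN: disjoint paths of length 4 between given typical vertices -/
def T_HCN : Prop := ∀ {V : Type} (G : SimpleGraph V) (A B X : Finset V) (d : ℝ) (t N : ℕ)
  (x y : Fin N → V), (∀ v ∈ A, v ∉ B) → A.card = B.card → 0 < d → d ≤ 1 → 1 ≤ t → LR G d t A B →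
  (20 * t : ℝ) ≤ d * A.card → (A.filter (fun v => v ∈ X)).card ≤ 3 * t →
  (B.filter (fun v => v ∈ X)).card ≤ 3 * t → 10 * N ≤ t →
  (∀ i, x i ∈ A ∧ y i ∈ A ∧ x i ∈ X ∧ y i ∈ X ∧ d * B.card ≤ (nb G B (x i)).card ∧
    d * B.card ≤ (nb G B (y i)).card) → (∀ i, x i ≠ y i) →
  ∃ l : Fin N → List V, (∀ i, (l i).length = 3 ∧ Pt G (x i) (l i) (y i) ∧
      ∀ v ∈ l i, (v ∈ A ∨ v ∈ B) ∧ v ∉ X) ∧
    ∀ i j, i ≠ j → ∀ v ∈ l i, v ∉ l j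

/-! ## F. Assembly of the cycles -/

/-- CAT: a cyclic sequence of lists -/
def T_CAT : Prop := ∀ {V : Type} (G : SimpleGraph V) (N : ℕ) (L : ℕ → List V), 1 ≤ N →
  (∀ i < N, L i ≠ [] ∧ (L i).Nodup ∧ (L i).IsChain G.Adj) →
  (∀ i < N, ∀ j < N, i ≠ j → ∀ v ∈ L i, v ∉ L j) →
  (∀ i < N, ∀ x ∈ (L i).getLast?, ∀ y ∈ (L ((i + 1) % N)).head?, G.Adj x y) →
  3 ≤ ∑ i ∈ range N, (L i).length → Cy G (∑ i ∈ range N, (L i).length)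

open scoped Classical in
/-- LKA: the system of paths. Index `(i, false)`, `(i, true)`: the two paths of the pair `i`. -/
def T_LKA : Prop := ∀ {V : Type} [Fintype V] (G : SimpleGraph V) (M r : ℕ)
  (d : ℝ) (A B : Fin M → Finset V) (t : Fin M → ℕ) (A₀ B₀ : Finset V) (t₀ : ℕ),
  Con G (2 * M) → 0 < d → d ≤ 1 →
  (∀ i, (∀ v ∈ A i, v ∉ B i) ∧ (A i).card = (B i).card ∧ (20 * t i : ℝ) ≤ d * (A i).card ∧
    (A i).card ≤ r * t i ∧ LR G d (t i) (A i) (B i) ∧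
    (6 * (2 * M) * (r + 1 : ℝ)) < d * t i ∧ 3 * (2 * M) * (1 / d + 3) ≤ t i) →
  (∀ v ∈ A₀, v ∉ B₀) → A₀.card = B₀.card → (20 * t₀ : ℝ) ≤ d * A₀.card → LR G d t₀ A₀ B₀ →
  3 * (2 * M) * (1 / d + 3) ≤ t₀ → 1 ≤ t₀ →
  (∀ i j, i ≠ j → ∀ v, (v ∈ A i ∨ v ∈ B i) → v ∉ A j ∧ v ∉ B j) →
  (∀ i, ∀ v, (v ∈ A i ∨ v ∈ B i) → v ∉ A₀ ∧ v ∉ B₀) →
  ∃ (a : Fin M × Bool → V) (Q : Fin M × Bool → List V), Function.Injective a ∧
    PS G a (A₀.filter (fun v => d * B₀.card ≤ (nb G B₀ v).card)) Q ∧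
    (∀ i e, a (i, e) ∈ A i ∧ d * (B i).card ≤ (nb G (B i) (a (i, e))).card) ∧
    (∀ i, ((A i).filter (fun v => ∃ j, v ∈ Q j)).card ≤ 3 * t i ∧
      ((B i).filter (fun v => ∃ j, v ∈ Q j)).card ≤ 3 * t i) ∧
    (A₀.filter (fun v => ∃ j, v ∈ Q j)).card ≤ 3 * t₀ ∧
    (B₀.filter (fun v => ∃ j, v ∈ Q j)).card ≤ 3 * t₀

/-- LNK: cycles through all selected pairs -/
def T_LNK : Prop := ∀ {V : Type} [Fintype V] (G : SimpleGraph V) (M r : ℕ)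
  (d : ℝ) (A B : Fin M → Finset V) (t : Fin M → ℕ) (A₀ B₀ : Finset V) (t₀ : ℕ),
  Con G (2 * M) → 0 < d → d ≤ 1 →
  (∀ i, (∀ v ∈ A i, v ∉ B i) ∧ (A i).card = (B i).card ∧ (20 * t i : ℝ) ≤ d * (A i).card ∧
    (A i).card ≤ r * t i ∧ LR G d (t i) (A i) (B i) ∧
    (6 * (2 * M) * (r + 1 : ℝ)) < d * t i ∧ 3 * (2 * M) * (1 / d + 3) ≤ t i) →
  (∀ v ∈ A₀, v ∉ B₀) → A₀.card = B₀.card → (20 * t₀ : ℝ) ≤ d * A₀.card → LR G d t₀ A₀ B₀ →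
  3 * (2 * M) * (1 / d + 3) ≤ t₀ → 1 ≤ t₀ →
  (∀ i j, i ≠ j → ∀ v, (v ∈ A i ∨ v ∈ B i) → v ∉ A j ∧ v ∉ B j) →
  (∀ i, ∀ v, (v ∈ A i ∨ v ∈ B i) → v ∉ A₀ ∧ v ∉ B₀) →
  ∃ p : Fin M → ℕ, ∀ I : Finset (Fin M), I.Nonempty → ∀ s : Fin M → ℕ,
    (∀ i ∈ I, s i + 20 * t i ≤ (A i).card) → Cy G (∑ i ∈ I, (p i + 2 * s i))

/-- CNT: parity and counting -/
def T_CNT : Prop := ∀ {V : Type} (G : SimpleGraph V) (M k : ℕ) (p u : Fin M → ℕ),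
  (∀ I : Finset (Fin M), I.Nonempty → ∀ s : Fin M → ℕ, (∀ i ∈ I, s i ≤ u i) →
    Cy G (∑ i ∈ I, (p i + 2 * s i))) →
  (∀ j, k ≤ ∑ i ∈ univ.erase j, u i) → 1 ≤ M → HasRun k G

/-- ALL: the theorem -/
def T_ALL : Prop := ∀ ε : ℝ, 0 < ε → ∃ k₀ : ℕ, ∀ k : ℕ, k₀ ≤ k → ∀ n : ℕ,
  ∀ G : SimpleGraph (Fin n), 0 < n → (1 + ε) * k * n ≤ G.edgeSet.ncard → HasRun k G

end Pool.Agent.H30.VR
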